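import Pool.Agent.Helper71.UN.StD

/-!
# Project UN of helper71, module LWB: associativity and units up to homotopy
-/

set_option autoImplicit false

open Set Filter Topology Matrix
open scoped ContDiff ComplexConjugate

noncomputable section

namespace Pool.Agent.Helper19.UN

open Pool.Agent.Helper71.UN

private lemma comp_smooth {n : ℕ} {al : Fin 4 → Fin n → Bool} {x y : Fm n} {γ : ℝ → Fm n}
    (h : IsP al x y γ) (l : Fin 4) (a b : Fin n) {f : ℝ × ℝ → ℝ} (hf : ContDiff ℝ ∞ f) :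
    ContDiff ℝ ∞ fun p => γ (f p) l a b := (h.smooth l a b).comp hf

private lemma assoc (hs : StSTP) {n : ℕ} {al : Fin 4 → Fin n → Bool} {x y z w : Fm n}
    {γ δ ε : ℝ → Fm n} (hγ : IsP al x y γ) (hδ : IsP al y z δ) (hε : IsP al z w ε) :
    Hm al x w (mu z (mu y γ δ) ε) (mu y γ (mu z δ ε)) := by
  obtain ⟨hst, h01, hz, ho, -⟩ := hs
  have hst2 : ContDiff ℝ ∞ fun p : ℝ × ℝ => stp p.2 := hst.comp contDiff_snd
  have hfst : ContDiff ℝ ∞ fun p : ℝ × ℝ => p.1 := contDiff_fst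
  refine ⟨fun p l => γ ((4 - 2 * stp p.2) * p.1) l + δ (4 * p.1 - 1 - stp p.2) l
    + ε ((2 + 2 * stp p.2) * p.1 - (1 + 2 * stp p.2)) l - y l - z l, ?_, ?_, ?_, ?_, ?_, ?_⟩
  · intro l a b
    have e1 : ContDiff ℝ ∞ fun p : ℝ × ℝ => (4 - 2 * stp p.2) * p.1 :=
      (contDiff_const.sub (contDiff_const.mul hst2)).mul hfst
    have e2 : ContDiff ℝ ∞ fun p : ℝ × ℝ => 4 * p.1 - 1 - stp p.2 :=
      ((contDiff_const.mul hfst).sub contDiff_const).sub hst2
    have e3 : ContDiff ℝ ∞ fun p : ℝ × ℝ => (2 + 2 * stp p.2) * p.1 - (1 + 2 * stp p.2) :=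
      ((contDiff_const.add (contDiff_const.mul hst2)).mul hfst).sub
        (contDiff_const.add (contDiff_const.mul hst2))
    have f1 := comp_smooth hγ l a b e1
    have f2 := comp_smooth hδ l a b e2
    have f3 := comp_smooth hε l a b e3
    exact (((f1.add f2).add f3).sub contDiff_const).sub contDiff_const
  · intro p
    beta_reduce
    obtain ⟨h0, h1⟩ := h01 p.2
    set ψ := stp p.2 with hψ
    rcases le_total p.1 ((1 + ψ) / 4) with c1 | c1
    · have a1 : 4 * p.1 - 1 - ψ ≤ 0 := by linarith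
      have a2 : (2 + 2 * ψ) * p.1 - (1 + 2 * ψ) ≤ 0 := by nlinarith
      have e : (fun l => γ ((4 - 2 * ψ) * p.1) l + δ (4 * p.1 - 1 - ψ) l
          + ε ((2 + 2 * ψ) * p.1 - (1 + 2 * ψ)) l - y l - z l) = γ ((4 - 2 * ψ) * p.1) := by
        funext l
        rw [hδ.left _ a1, hε.left _ a2]
        abel
      rw [e]
      exact hγ.ok _
    · have b1 : 1 ≤ (4 - 2 * ψ) * p.1 := by nlinarith
      rcases le_total p.1 ((2 + ψ) / 4) with c2 | c2
      · have a2 : (2 + 2 * ψ) * p.1 - (1 + 2 * ψ) ≤ 0 := by nlinarith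
        have e : (fun l => γ ((4 - 2 * ψ) * p.1) l + δ (4 * p.1 - 1 - ψ) l
            + ε ((2 + 2 * ψ) * p.1 - (1 + 2 * ψ)) l - y l - z l) = δ (4 * p.1 - 1 - ψ) := by
          funext l
          rw [hγ.right _ b1, hε.left _ a2]
          abel
        rw [e]
        exact hδ.ok _
      · have b2 : 1 ≤ 4 * p.1 - 1 - ψ := by linarith
        have e : (fun l => γ ((4 - 2 * ψ) * p.1) l + δ (4 * p.1 - 1 - ψ) l
            + ε ((2 + 2 * ψ) * p.1 - (1 + 2 * ψ)) l - y l - z l)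
            = ε ((2 + 2 * ψ) * p.1 - (1 + 2 * ψ)) := by
          funext l
          rw [hγ.right _ b1, hδ.right _ b2]
          abel
        rw [e]
        exact hε.ok _
  · intro p hp
    obtain ⟨h0, h1⟩ := h01 p.2
    have a0 : (4 - 2 * stp p.2) * p.1 ≤ 0 := by nlinarith
    have a1 : 4 * p.1 - 1 - stp p.2 ≤ 0 := by linarith
    have a2 : (2 + 2 * stp p.2) * p.1 - (1 + 2 * stp p.2) ≤ 0 := by nlinarith
    funext l
    simp only
    rw [hγ.left _ a0, hδ.left _ a1, hε.left _ a2]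
    abel
  · intro p hp
    obtain ⟨h0, h1⟩ := h01 p.2
    have a0 : 1 ≤ (4 - 2 * stp p.2) * p.1 := by nlinarith
    have a1 : 1 ≤ 4 * p.1 - 1 - stp p.2 := by linarith
    have a2 : 1 ≤ (2 + 2 * stp p.2) * p.1 - (1 + 2 * stp p.2) := by nlinarith
    funext l
    simp only
    rw [hγ.right _ a0, hδ.right _ a1, hε.right _ a2]
    abel
  · intro p hp
    funext l
    simp only [mu]
    rw [hz _ hp]
    have e1 : (4 - 2 * (0 : ℝ)) * p.1 = 2 * (2 * p.1) := by ring
    have e2 : 4 * p.1 - 1 - 0 = 2 * (2 * p.1) - 1 := by ring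
    have e3 : (2 + 2 * (0 : ℝ)) * p.1 - (1 + 2 * 0) = 2 * p.1 - 1 := by ring
    rw [e1, e2, e3]
    abel
  · intro p hp
    funext l
    simp only [mu]
    rw [ho _ hp]
    have e1 : (4 - 2 * (1 : ℝ)) * p.1 = 2 * p.1 := by ring
    have e2 : 4 * p.1 - 1 - 1 = 2 * (2 * p.1 - 1) := by ring
    have e3 : (2 + 2 * (1 : ℝ)) * p.1 - (1 + 2 * 1) = 2 * (2 * p.1 - 1) - 1 := by ring
    rw [e1, e2, e3]
    abel

private lemma unit_left (hs : StSTP) {n : ℕ} {al : Fin 4 → Fin n → Bool} {x y : Fm n}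
    {γ : ℝ → Fm n} (hγ : IsP al x y γ) : Hm al x y (mu x (fun _ => x) γ) γ := by
  obtain ⟨hst, h01, hz, ho, -⟩ := hs
  have hst2 : ContDiff ℝ ∞ fun p : ℝ × ℝ => stp p.2 := hst.comp contDiff_snd
  have hfst : ContDiff ℝ ∞ fun p : ℝ × ℝ => p.1 := contDiff_fst
  refine ⟨fun p => γ ((2 - stp p.2) * p.1 - (1 - stp p.2)), ?_, fun p => hγ.ok _, ?_, ?_, ?_, ?_⟩
  · intro l a b
    exact comp_smooth hγ l a b (((contDiff_const.sub hst2).mul hfst).sub
      (contDiff_const.sub hst2))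
  · intro p hp
    obtain ⟨h0, h1⟩ := h01 p.2
    exact hγ.left _ (by nlinarith)
  · intro p hp
    obtain ⟨h0, h1⟩ := h01 p.2
    exact hγ.right _ (by nlinarith)
  · intro p hp
    simp only
    rw [hz _ hp]
    funext l
    simp only [mu]
    have e1 : (2 - (0 : ℝ)) * p.1 - (1 - 0) = 2 * p.1 - 1 := by ring
    rw [e1]
    abel
  · intro p hp
    simp only
    rw [ho _ hp]
    congr 1
    ring

private lemma unit_right (hs : StSTP) {n : ℕ} {al : Fin 4 → Fin n → Bool} {x y : Fm n}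
    {γ : ℝ → Fm n} (hγ : IsP al x y γ) : Hm al x y (mu y γ (fun _ => y)) γ := by
  obtain ⟨hst, h01, hz, ho, -⟩ := hs
  have hst2 : ContDiff ℝ ∞ fun p : ℝ × ℝ => stp p.2 := hst.comp contDiff_snd
  have hfst : ContDiff ℝ ∞ fun p : ℝ × ℝ => p.1 := contDiff_fst
  refine ⟨fun p => γ ((2 - stp p.2) * p.1), ?_, fun p => hγ.ok _, ?_, ?_, ?_, ?_⟩
  · intro l a b
    exact comp_smooth hγ l a b ((contDiff_const.sub hst2).mul hfst)
  · intro p hp
    obtain ⟨h0, h1⟩ := h01 p.2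
    exact hγ.left _ (by nlinarith)
  · intro p hp
    obtain ⟨h0, h1⟩ := h01 p.2
    exact hγ.right _ (by nlinarith)
  · intro p hp
    simp only
    rw [hz _ hp]
    funext l
    simp only [mu]
    have e1 : (2 - (0 : ℝ)) * p.1 = 2 * p.1 := by ring
    rw [e1]
    abel
  · intro p hp
    simp only
    rw [ho _ hp]
    congr 1
    ring

/-- Associativity and units up to homotopy. -/
theorem hLWB (hs : StSTP) : StLWB := by
  intro n al x y z w γ δ ε
  exact ⟨fun hγ hδ hε => assoc hs hγ hδ hε, fun hγ => ⟨unit_left hs hγ, unit_right hs hγ⟩⟩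

end Pool.Agent.Helper19.UN
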